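import Mathlib
import Pool.Agent.Lib.MP_9c48c1_an.Defs
import Pool.Agent.Lib.MP_9c48c1_an.BoxFinal

set_option autoImplicit false

namespace Pool.Agent.Results.MP_9c48c1_an.BoxConstant

open MeasureTheory Pool.Agent.Lib.MP_9c48c1_an

/-- For `p = 2`, every dimension `n ≥ 2` and every box with side lengths `a i`, the best constant
of the reverse affine Sobolev inequality is
`(n^n π^(2(n-1)) / ((∏ a_i²) (∑ 1 / a_i²)))^(1/(2n))`, and it is attained in `W^{1,2}_0` by the
product of cosines. -/
theorem result (n : ℕ) (hn : 2 ≤ n) (a : Fin n → ℝ) (ha : ∀ i, 0 < a i) :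
    IsBestConst 2 (box a) (boxConst a) ∧
    ∃ g : E n → E n, MemW0 2 (box a) (cosProd a) g ∧ ¬ cosProd a =ᵐ[volume] 0 ∧
      affEnergy 2 g = boxConst a * rhs 2 (cosProd a) g :=
  ⟨box_best (by omega) ha, box_attained (by omega) ha⟩

end Pool.Agent.Results.MP_9c48c1_an.BoxConstant
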