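import Mathlib
import Pool.Agent.Lib.MP_9c48c1_an.Defs
import Pool.Agent.Lib.MP_9c48c1_an_disk.Defs
import Pool.Agent.Lib.MP_9c48c1_an_disk.BDefs
import Pool.Agent.Lib.MP_9c48c1_an_disk.T

set_option autoImplicit false

namespace Pool.Agent.Results.MP_9c48c1_an.Disk

open MeasureTheory Pool.Agent.Lib.MP_9c48c1_an Pool.Agent.Lib.MP_9c48c1_an.Disk

/-- For `n = p = 2` and the open unit disk the best constant of the reverse affine Sobolev
inequality is `√j`, `j` the first positive zero of the Bessel function `J_0`; it equals the known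
upper bound `λ_{1,2}(disk)^(1/4)`, as `λ_{1,2}(disk) = j²`, and the nonzero function `J_0(j|x|)` of
`W^{1,2}_0` attains it. -/
theorem result :
    (IsOpen disk ∧ Bornology.IsBounded disk) ∧
    (0 < j01 ∧ besselJ0 j01 = 0 ∧ ∀ x, 0 ≤ x → x < j01 → 0 < besselJ0 x) ∧
    lambda1 disk = j01 ^ 2 ∧
    IsBestConst 2 disk (Real.sqrt j01) ∧
    ∃ g : E 2 → E 2, MemW0 2 disk besselDisk g ∧ ¬ besselDisk =ᵐ[volume] 0 ∧
      affEnergy 2 g = Real.sqrt j01 * rhs 2 besselDisk g :=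
  ⟨⟨isOpen_disk, disk_bounded⟩, ⟨j01_pos, besselJ0_j01, fun _ h0 h1 => besselJ0_pos h0 h1⟩,
    lambda1_eq, disk_best_sqrt, ext_attained⟩

end Pool.Agent.Results.MP_9c48c1_an.Disk
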