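import Mathlib
import Pool.Agent.Lib.MP_9c48c1_an.Defs
import Pool.Agent.Lib.MP_9c48c1_an.Sharp

set_option autoImplicit false

namespace Pool.Agent.Results.MP_9c48c1_an.NoExtremal

open MeasureTheory Pool.Agent.Lib.MP_9c48c1_an

/-- For `n = p = 2` and the rhombus `2|x| + 20|y| < 1` the best constant of the reverse affine
Sobolev inequality is `√(2π)`, and it is attained neither by a nonzero admissible `C^1` function
nor by a nonzero function of `W^{1,2}_0`. -/
theorem result :
    IsOpen rhombus ∧ Bornology.IsBounded rhombus ∧ Convex ℝ rhombus ∧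
    IsBestConst 2 rhombus (Real.sqrt (2 * Real.pi)) ∧
    (∀ f : E 2 → ℝ, Adm rhombus f → f ≠ 0 →
      Real.sqrt (2 * Real.pi) * rhs 2 f (gradient f) < affEnergy 2 (gradient f)) ∧
    (∀ (f : E 2 → ℝ) (g : E 2 → E 2), MemW0 2 rhombus f g → ¬ f =ᵐ[volume] 0 →
      Real.sqrt (2 * Real.pi) * rhs 2 f g < affEnergy 2 g) := by
  refine ⟨isOpen_rhombus, rhombus_bounded, convex_rhombus, best_const, ?_,
    fun f g h h0 => strict_W0 h h0⟩
  intro f hf h0
  refine strict_W0 (adm_memW0 hf) fun h => h0 ?_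
  exact (Continuous.ae_eq_iff_eq volume hf.1.continuous continuous_zero).1 h

end Pool.Agent.Results.MP_9c48c1_an.NoExtremal
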