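import Mathlib
import Pool.Agent.Lib.MP_9c48c1_an.Defs
import Pool.Agent.Lib.MP_9c48c1_an_h27.NotSm
import Pool.Agent.Lib.MP_9c48c1_an_h27.TwoF

set_option autoImplicit false

namespace Pool.Agent.Results.MP_9c48c1_an.Smoothness

open MeasureTheory Set Pool.Agent.Lib.MP_9c48c1_an
open scoped ContDiff

/-- A continuous function that vanishes outside a bounded set and is not a.e. zero has a nonzero
local extremum in the set. -/
lemma exists_extr {n : ℕ} {Ω : Set (E n)} (hΩ : Bornology.IsBounded Ω)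
    {f : E n → ℝ} (h0 : ¬ f =ᵐ[volume] 0) (hf : Continuous f) (hz : ∀ x, x ∉ Ω → f x = 0) :
    ∃ x ∈ Ω, IsLocalExtr f x ∧ f x ≠ 0 := by
  have hcs : HasCompactSupport f := by
    refine Metric.isCompact_of_isClosed_isBounded (isClosed_tsupport f) ?_
    refine (hΩ.closure).subset (closure_mono fun x hx => ?_)
    by_contra hcon
    exact hx (hz x hcon)
  obtain ⟨y, hy⟩ : ∃ y, f y ≠ 0 := by
    by_contra hcon
    push Not at hcon
    exact h0 (Filter.Eventually.of_forall hcon)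
  have hcs' : HasCompactSupport fun x => |f x| := hcs.comp_left (g := fun t : ℝ => |t|) abs_zero
  obtain ⟨x, hx⟩ := hf.abs.exists_forall_ge_of_hasCompactSupport hcs'
  have h1 : 0 < |f x| := lt_of_lt_of_le (abs_pos.2 hy) (hx y)
  have h2 : f x ≠ 0 := abs_pos.1 h1
  refine ⟨x, ?_, ?_, h2⟩
  · by_contra hcon
    exact h2 (hz x hcon)
  · rcases lt_or_gt_of_ne h2 with h3 | h3
    · refine Or.inl (Filter.Eventually.of_forall fun z => ?_)
      have h4 := hx z
      rw [abs_of_neg h3] at h4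
      have := neg_abs_le (f z)
      linarith
    · refine Or.inr (Filter.Eventually.of_forall fun z => ?_)
      have h4 := hx z
      rw [abs_of_pos h3] at h4
      have := le_abs_self (f z)
      linarith

/-- Smoothness of the extremal functions. For `p = 2` every extremal function agrees a.e. in `Ω`
with a function that is `C^∞` in `Ω`. If `p > 1` and `p / (p - 1)` is not an even integer, an
extremal function is never `C^m` with `m ≥ p / (p - 1)` near a nonzero local extremum, and an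
extremal function that is continuous on `ℝ^n` and `0` outside `Ω` is never `C^m` in `Ω`. -/
theorem result :
    (∀ (n : ℕ), 2 ≤ n → ∀ (Ω : Set (E n)), IsOpen Ω → Bornology.IsBounded Ω →
      ∀ (A : ℝ), IsBestConst 2 Ω A → ∀ (f : E n → ℝ) (g : E n → E n), MemW0 2 Ω f g →
      ¬ f =ᵐ[volume] 0 → affEnergy 2 g = A * rhs 2 f g →
      ∃ h : E n → ℝ, ContDiffOn ℝ ∞ h Ω ∧ ∀ᵐ z, z ∈ Ω → f z = h z) ∧
    (∀ (n : ℕ) (p : ℝ), 2 ≤ n → 1 < p → (∀ j : ℕ, p / (p - 1) ≠ 2 * j) →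
      ∀ (Ω : Set (E n)), IsOpen Ω → Bornology.IsBounded Ω →
      ∀ (A : ℝ), IsBestConst p Ω A → ∀ (f : E n → ℝ) (g : E n → E n), MemW0 p Ω f g →
      ¬ f =ᵐ[volume] 0 → affEnergy p g = A * rhs p f g → ∀ m : ℕ, p / (p - 1) ≤ m →
      (∀ x ∈ Ω, IsLocalExtr f x → f x ≠ 0 → ¬ ContDiffAt ℝ m f x) ∧
      (Continuous f → (∀ x, x ∉ Ω → f x = 0) → ¬ ContDiffOn ℝ m f Ω)) := by
  refine ⟨fun n hn Ω hΩo hΩ A hA f g h h0 heq =>
    Lib.MP_9c48c1_an_h27.smooth_two hn hΩo hΩ hA h h0 heq, ?_⟩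
  intro n p hn hp hj Ω hΩo hΩ A hA f g h h0 heq m hm
  have key : ∀ x ∈ Ω, IsLocalExtr f x → f x ≠ 0 → ¬ ContDiffAt ℝ m f x := by
    intro x hx hext hfx hcd
    obtain ⟨j, hj'⟩ := Lib.MP_9c48c1_an_h27.not_smooth hn hp hΩo hΩ hA h h0 heq hx hext hfx hm hcd
    exact hj j hj'
  refine ⟨key, fun hc hz hcd => ?_⟩
  obtain ⟨x, hx, hext, hfx⟩ := exists_extr hΩ h0 hc hz
  exact key x hx hext hfx (hcd.contDiffAt (hΩo.mem_nhds hx))

end Pool.Agent.Results.MP_9c48c1_an.Smoothness
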